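import Mathlib
import Pool.Agent.Run7.h584.Cosm

set_option autoImplicit false
open TopologicalSpace Topology

namespace Pool.Agent.Results.MP_5e4df8_gt.NoBorelExample

/-- Let `X` be a separable Hausdorff space whose neighbourhoods are parametrised in a Borel way:
`P` is a standard Borel space of indices, the index `p` stands for the neighbourhood `U p` of the
point `π p`, every neighbourhood of every point contains one of these, and the set of the pairs
`(p, q)` with `π q ∉ U p` is a countable union of Borel rectangles. If `X ^ n` is perfectly normal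
for some `n ≥ 2`, then `X` has a countable network, and every finite power of `X` is
hereditarily Lindelöf and perfectly normal. -/
theorem result (X : Type) [TopologicalSpace X] [T2Space X] [SeparableSpace X]
    (P : Type) [MeasurableSpace P] [StandardBorelSpace P] (π : P → X) (U : P → Set X)
    (hU : ∀ p, U p ∈ 𝓝 (π p)) (hbase : ∀ x, ∀ O ∈ 𝓝 x, ∃ p, π p = x ∧ U p ⊆ O)
    (hB : ∃ A V : ℕ → Set P, (∀ j, MeasurableSet (A j)) ∧ (∀ j, MeasurableSet (V j)) ∧
      ∀ p q, π q ∉ U p ↔ ∃ j, p ∈ A j ∧ q ∈ V j)
    (n : ℕ) (hn : 2 ≤ n) (hX : PerfectlyNormalSpace (Fin n → X)) :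
    (∃ N : ℕ → Set X, ∀ O : Set X, IsOpen O → ∀ x ∈ O, ∃ i, x ∈ N i ∧ N i ⊆ O) ∧
      ∀ k : ℕ, HereditarilyLindelofSpace (Fin k → X) ∧ PerfectlyNormalSpace (Fin k → X) := by
  have h2 : PerfectlyNormalSpace (Fin 2 → X) :=
    Run7.h584.perfectlyNormal_of_le two_pos hn hX
  have hN := Run7.h584.exists_network h2 π U hU hbase hB
  exact ⟨hN, Run7.h584.all_powers hN (by omega) hX⟩

end Pool.Agent.Results.MP_5e4df8_gt.NoBorelExample
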