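import Mathlib
import Pool.Agent.Run7.h584.LTp7

set_option autoImplicit false
open TopologicalSpace

namespace Pool.Agent.Results.MP_5e4df8_gt.SeparableFrechetZFC

/-- For every `n` there is a Hausdorff space `X` with a base of at most `ℵ₁` clopen sets and a
countable dense set of isolated points, all of whose finite powers are Fréchet-Urysohn, such that
`X ^ n` is hereditarily Lindelöf and perfectly normal, `X ^ (n + 1)` is Lindelöf and normal but
has a closed set that is not a `G_δ`, and `X ^ ω` is therefore not perfectly normal. -/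
theorem result :
    ∀ n : ℕ, ∃ (X : Type) (_ : TopologicalSpace X),
      T2Space X ∧
      (∃ D : Set X, D.Countable ∧ Dense D ∧ ∀ d ∈ D, IsOpen ({d} : Set X)) ∧
      (∃ b : Set (Set X), IsTopologicalBasis b ∧ (∀ u ∈ b, IsClopen u) ∧
        Cardinal.mk b ≤ Cardinal.aleph 1) ∧
      (∀ k : ℕ, FrechetUrysohnSpace (Fin k → X)) ∧
      HereditarilyLindelofSpace (Fin n → X) ∧
      PerfectlyNormalSpace (Fin n → X) ∧
      LindelofSpace (Fin (n + 1) → X) ∧
      NormalSpace (Fin (n + 1) → X) ∧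
      (∃ C : Set (Fin (n + 1) → X), IsClosed C ∧ ¬ IsGδ C) ∧
      ¬ PerfectlyNormalSpace (ℕ → X) := by
  classical
  intro n
  let W : Type := (Cardinal.aleph 1).ord.ToType
  have hWcard : Cardinal.mk W = Cardinal.aleph 1 := Cardinal.mk_ord_toType _
  have hWc : Cardinal.mk W ≤ Cardinal.continuum := by
    rw [hWcard]
    exact Cardinal.aleph_one_le_continuum
  have hW : ∀ b : W, (Set.Iio b).Countable := by
    intro b
    rw [← Cardinal.le_aleph0_iff_set_countable, ← Cardinal.lt_aleph_one_iff]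
    have h := Cardinal.mk_Iio_lt b (by simp [W])
    rwa [hWcard] at h
  have : Uncountable W := by
    rw [← Cardinal.aleph0_lt_mk_iff, hWcard]
    exact Cardinal.aleph0_lt_aleph_one
  obtain ⟨Y, hB⟩ := Run7.h584.Sys.exists_sys (W := W) n hW hWc
  obtain ⟨g, hg⟩ := Run7.h584.exists_tower hW
  obtain ⟨τ, hτ1, hτ2, hFU⟩ := Y.exists_good_tower hW g
  have hD := Run7.h584.Sys.DD_countable g τ
  have hHL : HereditarilyLindelofSpace (Fin n → Y.Sp3 (Run7.h584.Sys.DD g τ)) :=
    Run7.h584.hereditarilyLindelof_of_HLs (Y.HLs_pow3 _ hW hD n le_rfl)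
  have hL : LindelofSpace (Fin (n + 1) → Y.Sp3 (Run7.h584.Sys.DD g τ)) :=
    Y.lindelof_pow3 _ hW hD hB
  have hPN : PerfectlyNormalSpace (Fin n → Y.Sp3 (Run7.h584.Sys.DD g τ)) :=
    Run7.h584.perfectlyNormal_of_HL
  obtain ⟨C, hC, hnot⟩ := Y.exists_not_isGδ3 _ hW hD hB
  exact ⟨Y.Sp3 (Run7.h584.Sys.DD g τ), inferInstance, inferInstance,
    ⟨{x | x.1 ∈ Run7.h584.Sys.DD g τ}, hD.preimage Subtype.val_injective,
      Y.dense_isolated hW hg hτ1 hτ2, fun d hd => Y.isOpen_singleton_of_mem d hd⟩,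
    Y.exists_base_Sp3 _ hWcard, hFU, hHL, hPN, hL, inferInstance, ⟨C, hC, hnot⟩,
    Run7.h584.not_perfectlyNormal_omega hC hnot⟩

end Pool.Agent.Results.MP_5e4df8_gt.SeparableFrechetZFC
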