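import Mathlib
import Pool.Agent.Run7.h584.Ext
import Pool.Agent.Run7.h584.Fs

set_option autoImplicit false
open TopologicalSpace

namespace Pool.Agent.Results.MP_5e4df8_gt.SeparablePerfectPowers

/-- For every `n` there is a separable first countable zero-dimensional Hausdorff space `X`
whose `n`-th power is perfect and whose `(n + 1)`-st power is not perfect. -/
theorem result :
    ∀ n : ℕ, ∃ (X : Type) (_ : TopologicalSpace X),
      T2Space X ∧ IsTopologicalBasis {s : Set X | IsClopen s} ∧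
      SeparableSpace X ∧ FirstCountableTopology X ∧
      (∀ C : Set (Fin n → X), IsClosed C → IsGδ C) ∧
      ∃ C : Set (Fin (n + 1) → X), IsClosed C ∧ ¬ IsGδ C := by
  classical
  intro n
  let W : Type := (Cardinal.aleph 1).ord.ToType
  have hWcard : Cardinal.mk W = Cardinal.aleph 1 := Cardinal.mk_ord_toType _
  have hW : ∀ b : W, (Set.Iio b).Countable := by
    intro b
    rw [← Cardinal.le_aleph0_iff_set_countable, ← Cardinal.lt_aleph_one_iff]
    have h := Cardinal.mk_Iio_lt b (by simp [W])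
    rwa [hWcard] at h
  have : Uncountable W := by
    rw [← Cardinal.aleph0_lt_mk_iff, hWcard]
    exact Cardinal.aleph0_lt_aleph_one
  have hr : ∃ r : W → ℕ → Bool, Function.Injective r := by
    have h1 : Cardinal.mk W ≤ Cardinal.mk (ℕ → Bool) := by
      rw [hWcard]
      have : Cardinal.mk (ℕ → Bool) = Cardinal.continuum := by simp
      rw [this]
      exact Cardinal.aleph_one_le_continuum
    obtain ⟨r⟩ := h1
    exact ⟨r, r.injective⟩
  obtain ⟨r, hr⟩ := hr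
  obtain ⟨F₀, hF₀⟩ := Run7.h584.exists_colouring hW r hr
  obtain ⟨x, E, hEx, hEc, hEp, hEt⟩ := Run7.h584.exists_bern hW
  -- the colouring, constant above the diagonal
  let F : W → W → Fin (n + 1) := fun α β => if α < β then Fin.ofNat (n + 1) (F₀ α β) else 0
  have hF : ∀ Z : Set W, ¬ Z.Countable → ∀ j : Fin (n + 1), ∃ α ∈ Z, ∃ β ∈ Z, α ≠ β ∧ F α β = j := by
    intro Z hZ j
    obtain ⟨α, hα, β, hβ, hlt, h⟩ := hF₀ Z hZ j.val
    refine ⟨α, hα, β, hβ, hlt.ne, ?_⟩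
    show (if α < β then Fin.ofNat (n + 1) (F₀ α β) else 0) = j
    rw [if_pos hlt, h]
    exact Fin.ofNat_val_eq_self j
  -- the almost disjoint family and the separators
  obtain ⟨f, hf⟩ := Run7.h584.exists_tower hW
  have hsep := fun (ξ : W) (P : Set W) (hP : P ⊆ Set.Iio ξ) =>
    Run7.h584.exists_separator hW f hf ξ P hP
  have hS : ∀ (ξ : W) (i : Fin (n + 1)), ∃ S : Set (ℕ × ℕ),
      (∀ ζ, ζ ≠ ξ → F ζ ξ ≠ i → ∃ N, ∀ m ≥ N, (m, f ζ m) ∈ S) ∧
      (∀ ζ, ζ ≠ ξ → F ζ ξ = i → ∃ N, ∀ m ≥ N, (m, f ζ m) ∉ S) := by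
    intro ξ i
    by_cases hi : i = 0
    · obtain ⟨S, hS1, hS2⟩ := hsep ξ {ζ | ζ < ξ ∧ F ζ ξ ≠ i} (fun ζ h => h.1)
      refine ⟨S, fun ζ hne hF' => hS1 ζ ⟨?_, hF'⟩, fun ζ hne hF' => hS2 ζ (fun h => h.2 hF')⟩
      by_contra hcon
      apply hF'
      show (if ζ < ξ then Fin.ofNat (n + 1) (F₀ ζ ξ) else 0) = i
      rw [if_neg hcon, hi]
    · obtain ⟨S, hS1, hS2⟩ := hsep ξ {ζ | ζ < ξ ∧ F ζ ξ = i} (fun ζ h => h.1)
      refine ⟨Sᶜ, fun ζ hne hF' => hS2 ζ (fun h => hF' h.2), fun ζ hne hF' => ?_⟩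
      have hlt : ζ < ξ := by
        by_contra hcon
        apply hi
        rw [← hF']
        show (if ζ < ξ then Fin.ofNat (n + 1) (F₀ ζ ξ) else 0) = 0
        rw [if_neg hcon]
      obtain ⟨N, hN⟩ := hS1 ζ ⟨hlt, hF'⟩
      exact ⟨N, fun m hm h => h (hN m hm)⟩
  choose S hS1 hS2 using hS
  have had : ∀ ζ ξ : W, ζ ≠ ξ → ∃ N, ∀ m ≥ N, f ζ m ≠ f ξ m := by
    intro ζ ξ h
    rcases lt_or_gt_of_ne h with h | h
    · obtain ⟨N, hN⟩ := hf _ _ h
      exact ⟨N, fun m hm => (hN m hm).ne⟩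
    · obtain ⟨N, hN⟩ := hf _ _ h
      exact ⟨N, fun m hm => (hN m hm).ne'⟩
  have hSep : Run7.h584.Sep F f S :=
    ⟨had, fun ζ ξ i h1 h2 => hS1 ξ i ζ h1 h2, fun ζ ξ i h1 h2 => hS2 ξ i ζ h1 h2⟩
  have hT2 : T2Space (Run7.h584.Ext E F f S) := Run7.h584.ext_t2 hSep
  have hemb := Run7.h584.isClosedEmbedding_inl (E := E) (F := F) (f := f) (S := S)
  refine ⟨Run7.h584.Ext E F f S, inferInstance, hT2, Run7.h584.ext_clopen_basis hSep,
    Run7.h584.ext_separable, Run7.h584.ext_firstCountable hSep, ?_, ?_⟩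
  · intro C hC
    have hc : (Set.range (Run7.h584.Ext.pt : Run7.h584.Sp E F → Run7.h584.Ext E F f S))ᶜ.Countable := by
      refine (Set.countable_range
        (Run7.h584.Ext.iso : Fin (n + 1) × List (ℕ × ℕ) → Run7.h584.Ext E F f S)).mono ?_
      rintro (y | a) hy
      · exact absurd ⟨y, rfl⟩ hy
      · exact ⟨a, rfl⟩
    have h := Run7.h584.isFs_pow_ext (Run7.h584.Ext.pt : Run7.h584.Sp E F → Run7.h584.Ext E F f S)
      hemb hc n (fun k hk U hU => Run7.h584.exists_Fsigma hEc x hEp hF k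
        (by simp; omega) U hU) n le_rfl Cᶜ hC.isOpen_compl
    have h2 := Run7.h584.isGδ_compl_of_isFs h
    rwa [compl_compl] at h2
  · let j : (Fin (n + 1) → Run7.h584.Sp E F) → (Fin (n + 1) → Run7.h584.Ext E F f S) :=
      Pi.map (fun _ => Run7.h584.Ext.pt)
    have hj : Topology.IsClosedEmbedding j := Topology.IsClosedEmbedding.piMap (fun _ => hemb)
    refine ⟨j '' Run7.h584.diagSet E F, hj.isClosedMap _ Run7.h584.isClosed_diagSet, fun hG => ?_⟩
    have h1 := hG.preimage hj.continuous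
    rw [Set.preimage_image_eq _ hj.injective] at h1
    exact Run7.h584.not_isGδ_diagSet hEc hEt h1

end Pool.Agent.Results.MP_5e4df8_gt.SeparablePerfectPowers
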