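import Mathlib
import Pool.Agent.Run7.h584.Perfect
import Pool.Agent.Run7.h584.Base

set_option autoImplicit false
open TopologicalSpace

namespace Pool.Agent.Results.MP_5e4df8_gt.ZFCWeightAlephOne

/-- For every `n` there is a Hausdorff first countable space `X` with a base of cardinality at
most `ℵ₁`, all of whose finite powers are paracompact, whose `n`-th power is perfectly normal,
whose `(n + 1)`-st power is normal but has a closed set that is not a `G_δ`, and whose countable
power is therefore not perfectly normal. -/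
theorem result :
    ∀ n : ℕ, ∃ (X : Type) (_ : TopologicalSpace X),
      T2Space X ∧ FirstCountableTopology X ∧
      (∃ b : Set (Set X), IsTopologicalBasis b ∧ Cardinal.mk b ≤ Cardinal.aleph 1) ∧
      (∀ k : ℕ, ParacompactSpace (Fin k → X)) ∧
      PerfectlyNormalSpace (Fin n → X) ∧
      NormalSpace (Fin (n + 1) → X) ∧
      (∃ C : Set (Fin (n + 1) → X), IsClosed C ∧ ¬ IsGδ C) ∧
      ¬ PerfectlyNormalSpace (ℕ → X) := by
  classical
  intro n
  let W : Type := (Cardinal.aleph 1).ord.ToType
  have hWcard : Cardinal.mk W = Cardinal.aleph 1 := Cardinal.mk_ord_toType _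
  have hW : ∀ b : W, (Set.Iio b).Countable := by
    intro b
    rw [← Cardinal.le_aleph0_iff_set_countable, ← Cardinal.lt_aleph_one_iff]
    have h := Cardinal.mk_Iio_lt b (by simp [W])
    rwa [hWcard] at h
  have : Uncountable W := by
    rw [← Cardinal.aleph0_lt_mk_iff, hWcard]
    exact Cardinal.aleph0_lt_aleph_one
  have hr : ∃ r : W → ℕ → Bool, Function.Injective r := by
    have h1 : Cardinal.mk W ≤ Cardinal.mk (ℕ → Bool) := by
      rw [hWcard]
      have : Cardinal.mk (ℕ → Bool) = Cardinal.continuum := by simp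
      rw [this]
      exact Cardinal.aleph_one_le_continuum
    obtain ⟨r⟩ := h1
    exact ⟨r, r.injective⟩
  obtain ⟨r, hr⟩ := hr
  obtain ⟨F₀, hF₀⟩ := Run7.h584.exists_colouring hW r hr
  obtain ⟨x, E, hEx, hEc, hEp, hEt⟩ := Run7.h584.exists_bern hW
  let F : W → W → Fin (n + 1) := fun α β => Fin.ofNat (n + 1) (F₀ α β)
  have hF : ∀ Z : Set W, ¬ Z.Countable → ∀ j : Fin (n + 1), ∃ α ∈ Z, ∃ β ∈ Z, α ≠ β ∧ F α β = j := by
    intro Z hZ j
    obtain ⟨α, hα, β, hβ, hlt, h⟩ := hF₀ Z hZ j.val
    refine ⟨α, hα, β, hβ, hlt.ne, ?_⟩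
    show Fin.ofNat (n + 1) (F₀ α β) = j
    rw [h]
    exact Fin.ofNat_val_eq_self j
  have hpara : ∀ k : ℕ, ParacompactSpace (Fin k → Run7.h584.Sp E F) :=
    fun k => Run7.h584.paracompact_pow hEc k
  have hnorm : ∀ k : ℕ, NormalSpace (Fin k → Run7.h584.Sp E F) := by
    intro k
    have := hpara k
    infer_instance
  have hnot : ¬ IsGδ (Run7.h584.diagSet E F) := Run7.h584.not_isGδ_diagSet hEc hEt
  have hclosed : IsClosed (Run7.h584.diagSet E F) := Run7.h584.isClosed_diagSet
  refine ⟨Run7.h584.Sp E F, inferInstance, inferInstance, inferInstance,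
    Run7.h584.exists_base hWcard x hEx, hpara, ?_, hnorm _, ⟨Run7.h584.diagSet E F, hclosed, hnot⟩, ?_⟩
  · have := hnorm n
    refine ⟨?_⟩
    intro s hs
    obtain ⟨H, hH1, hH2⟩ := Run7.h584.exists_Fsigma hEc x hEp hF n (by simp) sᶜ hs.isOpen_compl
    have : s = ⋂ m, (H m)ᶜ := by
      rw [← Set.compl_iUnion, hH2, compl_compl]
    rw [this]
    exact IsGδ.iInter_of_isOpen (fun m => (hH1 m).isOpen_compl)
  · intro hP
    apply hnot
    let c : Run7.h584.Sp E F := (0, fun _ => Classical.arbitrary W)
    let π : (ℕ → Run7.h584.Sp E F) → (Fin (n + 1) → Run7.h584.Sp E F) := fun f l => f l.val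
    let σ : (Fin (n + 1) → Run7.h584.Sp E F) → (ℕ → Run7.h584.Sp E F) :=
      fun f m => if h : m < n + 1 then f ⟨m, h⟩ else c
    have hπ : Continuous π := continuous_pi (fun l => continuous_apply _)
    have hσ : Continuous σ := by
      apply continuous_pi
      intro m
      by_cases h : m < n + 1
      · have : (fun f : Fin (n + 1) → Run7.h584.Sp E F => σ f m) = fun f => f ⟨m, h⟩ := by
          ext f : 1
          exact dif_pos h
        rw [this]
        exact continuous_apply _
      · have : (fun f : Fin (n + 1) → Run7.h584.Sp E F => σ f m) = fun f => c := by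
          ext f : 1
          exact dif_neg h
        rw [this]
        exact continuous_const
    have hπσ : ∀ f, π (σ f) = f := by
      intro f
      funext l
      show (if h : l.val < n + 1 then f ⟨l.val, h⟩ else c) = f l
      rw [dif_pos l.isLt]
    have h1 : IsGδ (π ⁻¹' (Run7.h584.diagSet E F)) := hP.closed_gdelta (hclosed.preimage hπ)
    have h2 : Run7.h584.diagSet E F = σ ⁻¹' (π ⁻¹' (Run7.h584.diagSet E F)) := by
      ext f
      show f ∈ Run7.h584.diagSet E F ↔ π (σ f) ∈ Run7.h584.diagSet E F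
      rw [hπσ]
    rw [h2]
    exact h1.preimage hσ

end Pool.Agent.Results.MP_5e4df8_gt.ZFCWeightAlephOne
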